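import Pool.Agent.H70.RZT.S
import Pool.Agent.H80.NF.L2T

/-!
# RZT, row E2T: the twist at the completions of `E` above `2`
-/

set_option autoImplicit false

namespace Pool.RZT

open Polynomial Matrix NumberField IsDedekindDomain Pool.HYP Pool.TOW Pool.AVS Pool.T1 Pool.NF

theorem e2t (hS : SPC2Stmt) (hQ : SQDStmt) : E2TStmt := by
  intro K _ _ E _ _ hspl f d e p hf hd h L _ O' ι P hA hP
  obtain ⟨h1, h2⟩ := hS K P E L O' ι hA
  obtain ⟨z, hz, hz2⟩ := hQ K L O' (ι.comp (algebraMap K E)) (h1 (hspl P hP)) (h2.mp hP) e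
  have hh := h L O' ι hA.1
  have hfk : ∀ g : (𝓞 K)[X],
      g.map ((algebraMap K E).comp (algebraMap (𝓞 K) K)) = fkE K E g :=
    fun g => (Polynomial.map_map _ _ _).symm
  have key := @ls2 (𝓞 K) _ E _ ((algebraMap K E).comp (algebraMap (𝓞 K) K)).toAlgebra L _ ι d f p z
    hf hz (by
      rw [hz2, hd]
      rfl)
  have e1 : @LSDK (𝓞 K) _ E _ ((algebraMap K E).comp (algebraMap (𝓞 K) K)).toAlgebra L _ ι d f p := by
    obtain ⟨u, w, s, hu, hc, hdv, hk⟩ := hh
    refine ⟨u, w, s, hu, ?_, ?_, ?_⟩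
    · have := hfk (f.scaleRoots d)
      rw [← this] at hc
      exact hc
    · have := hfk (f.scaleRoots d)
      rw [← this] at hdv
      exact hdv
    · rw [← hfk f] at hk
      exact hk
  have e2 := key e1
  rw [← hfk f]
  exact e2

end Pool.RZT
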